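import Pool.Agent.Helper95.GB.GE.Defs
import Pool.Agent.Helper95.GB.PL.Ord

/-! # GB/GE/Paths: tree paths and walks (stub, prove in place)

* `pathF_stable`: for `lo v + 1 ≤ m`: `pathF m v = pathF (lo v + 1) v` (induction on `m`, `lo (par a) < lo (some a)`);
this gives `path_some`.  `path_none` by `rfl`.
* `path_mem`: `a ∈ path v ↔ lo (some a) ≤ lo v ∧ hi v ≤ hi (some a)`.  Induction along `path_some` (strong induction on
`lo v`).  For `v = some b`, `a ≠ b`: `a` is an ancestor-or-equal of `par b` iff of `b` (`lo (some a) < lo (some b) <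
hi (some a)` gives by `a3` for `t b`: `lo (some a) ≤ lo (par b)`, `hi (par b) ≤ hi (some a)`; converse by `a1`, `a2`).
For `v = none`: `lo none ≤ lo (par a) < lo (some a)`.
* `wq_walk`: the walk of the path of `v` goes from `M + δ r` to `M + δ (be v)` (induction with `path_some`:
the edge `(t a, M)` goes from `M + δ (be (par a))` to `M + δ (t a) = M + δ (be (some a))`), then `x`.
* `wq_some`: if `vt x = some a` then `wq x M = wq (t a) M ++ [((x,M),true)]` (`path_some`).
* `rn_append`, `fin_append`: induction on `X`.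
* `rn_walk`: if `X.length ≤ S r` then `rn S X` is a walk from `S` to `fin S X`: `S = (S - δ r) + δ r`; the number of
particles on `r` drops by at most one in each step.
* `fin_eq`: `fin (st n) X = (n - |X|) • δ r + ∑ δ (ed x)` for `|X| ≤ n`.
* `dec`: let `inb i x`.  There is a list `A` of half-edges with `Chn (ed i) A (ed x)`, `wq x N = wq i N ++ ap A N` for all
`N`, and every `a ∈ A` satisfies: `i = t a'` for some `a'` with `bey (some a') a`.  If `x = i`: `A = []`.  Otherwise
(`Ax.inb_leaf`, `Ax.inb_t`) `i = t a'`, `bey (some a') x`; strong induction on `lo (vt x)`: if `vt x = some a'` then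
`A = [x]`; otherwise `vt x = some b`, `bey (some a') (t b)`, take `A' ` for `t b` and `A = A' ++ [x]` (`wq_some`).
-/

set_option autoImplicit false

namespace GB

namespace PD

variable {W C Z : Type} (P : PD W C Z)

/-- one-particle walk along a list of half-edges, spectators `M` -/
def ap (A : List (JJ W C Z)) (M : EE W C →₀ ℕ) : Wk W C Z := A.map (fun a => ((a, M), true))

/-- the list of half-edges leads from the edge `e` to the edge `e'` -/
def Chn : EE W C → List (JJ W C Z) → EE W C → Prop
  | e, [], e' => e = e'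
  | e, x :: A, e' => be (P.vt x) = e ∧ Chn (ed x) A e'

variable {P}

theorem path_none : P.path none = [] := by
  rfl

private theorem pathF_stable (h : P.Ax) (v : Option W) :
    ∀ m, P.lo v + 1 ≤ m → P.pathF m v = P.pathF (P.lo v + 1) v := by
  induction hn : P.lo v using Nat.strong_induction_on generalizing v with
  | _ n ih =>
    intro m hm
    cases v with
    | none =>
      obtain ⟨m, rfl⟩ : ∃ k, m = k + 1 := ⟨m - 1, by omega⟩
      rfl
    | some a =>
      obtain ⟨m, rfl⟩ : ∃ k, m = k + 1 := ⟨m - 1, by omega⟩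
      have h1 := h.par_lt a
      have e1 := ih (P.lo (P.par a)) (by omega) (P.par a) rfl m (by omega)
      have e2 := ih (P.lo (P.par a)) (by omega) (P.par a) rfl n (by omega)
      show P.pathF m (P.par a) ++ [a] = P.pathF n (P.par a) ++ [a]
      rw [e1, e2]

theorem Ax.path_some (h : P.Ax) (a : W) : P.path (some a) = P.path (P.par a) ++ [a] := by
  have h1 := h.par_lt a
  have e1 := pathF_stable h (P.par a) (P.lo (some a)) (by omega)
  show P.pathF (P.lo (some a)) (P.par a) ++ [a] = P.pathF (P.lo (P.par a) + 1) (P.par a) ++ [a]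
  rw [e1]

theorem Ax.path_mem (h : P.Ax) (v : Option W) (a : W) :
    a ∈ P.path v ↔ P.lo (some a) ≤ P.lo v ∧ P.hi v ≤ P.hi (some a) := by
  induction hn : P.lo v using Nat.strong_induction_on generalizing v with
  | _ n ih =>
    cases v with
    | none =>
      rw [path_none]
      have h1 := h.par_lt a
      have h2 := h.lo_none_le (P.par a)
      constructor
      · intro h3
        simp at h3
      · rintro ⟨h3, h4⟩
        omega
    | some b =>
      have h1 := h.par_lt b
      have h2 := h.a2 b
      rw [h.path_some, List.mem_append, List.mem_singleton,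
        ih (P.lo (P.par b)) (by omega) (P.par b) rfl]
      constructor
      · rintro (⟨h3, h4⟩ | rfl)
        · exact ⟨by omega, by omega⟩
        · exact ⟨by omega, le_rfl⟩
      · rintro ⟨h3, h4⟩
        by_cases hab : a = b
        · exact Or.inr hab
        · left
          have h5 : P.lo (some a) ≠ P.lo (some b) := fun h6 => hab (by
            have := h.lo_inj h6
            injection this)
          have h6 := h.a0 (some b)
          have h7 : P.pos (.t b) = P.lo (some b) := rfl
          exact h.a3 (some a) (.t b) (by omega) (by omega)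

private theorem path_walk (h : P.Ax) (v : Option W) (M : EE W C →₀ ℕ) :
    P.dg.cx.IsWalk (M + δ EE.r) ((P.path v).map (fun a => ((JJ.t a, M), true)))
      (M + δ (be v)) := by
  induction hn : P.lo v using Nat.strong_induction_on generalizing v with
  | _ n ih =>
    cases v with
    | none => exact rfl
    | some a =>
      have h1 := h.par_lt a
      rw [h.path_some, List.map_append]
      exact Cx.isWalk_append (ih (P.lo (P.par a)) (by omega) (P.par a) rfl) ⟨rfl, rfl⟩

theorem Ax.wq_walk (h : P.Ax) (x : JJ W C Z) (M : EE W C →₀ ℕ) :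
    P.dg.cx.IsWalk (M + δ EE.r) (P.wq x M) (M + δ (ed x)) := by
  exact Cx.isWalk_append (path_walk h (P.vt x) M) ⟨rfl, rfl⟩

theorem Ax.wq_some (h : P.Ax) (x : JJ W C Z) (a : W) (hx : P.vt x = some a)
    (M : EE W C →₀ ℕ) : P.wq x M = P.wq (.t a) M ++ [((x, M), true)] := by
  unfold wq
  rw [hx, h.path_some, List.map_append]
  rfl

/-- the vertices of the half-edges in `wq x M` are ancestors-or-equal of `vt x` -/
theorem Ax.wq_vt (h : P.Ax) (x : JJ W C Z) (M : EE W C →₀ ℕ) :
    ∀ b ∈ P.wq x M, P.lo (P.vt b.1.1) ≤ P.lo (P.vt x) ∧ P.hi (P.vt x) ≤ P.hi (P.vt b.1.1) := by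
  intro b hb
  unfold wq at hb
  rw [List.mem_append, List.mem_map, List.mem_singleton] at hb
  rcases hb with ⟨a, ha, rfl⟩ | rfl
  · rw [h.path_mem] at ha
    have h1 := h.par_lt a
    have h2 := h.a2 a
    have h3 : P.vt (JJ.t a : JJ W C Z) = P.par a := rfl
    simp only [h3]
    exact ⟨by omega, by omega⟩
  · exact ⟨le_rfl, le_rfl⟩

theorem rn_append (S : EE W C →₀ ℕ) (X Y : List (JJ W C Z)) :
    P.rn S (X ++ Y) = P.rn S X ++ P.rn (fin S X) Y := by
  induction X generalizing S with
  | nil => rfl
  | cons x X ih =>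
    show P.wq x (S - δ EE.r) ++ P.rn (S - δ EE.r + δ (ed x)) (X ++ Y) =
      (P.wq x (S - δ EE.r) ++ P.rn (S - δ EE.r + δ (ed x)) X) ++
        P.rn (fin (S - δ EE.r + δ (ed x)) X) Y
    rw [ih, List.append_assoc]

theorem fin_append (S : EE W C →₀ ℕ) (X Y : List (JJ W C Z)) :
    fin S (X ++ Y) = fin (fin S X) Y := by
  induction X generalizing S with
  | nil => rfl
  | cons x X ih => exact ih _

theorem fin_r (S : EE W C →₀ ℕ) (X : List (JJ W C Z)) (hX : X.length ≤ S EE.r) :
    S EE.r ≤ (fin S X) EE.r + X.length := by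
  induction X generalizing S with
  | nil => exact le_rfl
  | cons x X ih =>
    have e1 : (S - δ EE.r + δ (ed x) : EE W C →₀ ℕ) EE.r =
        S EE.r - 1 + (δ (ed x) : EE W C →₀ ℕ) EE.r := by
      rw [Finsupp.add_apply, Finsupp.tsub_apply, Finsupp.single_eq_same]
    rw [List.length_cons] at hX
    have e2 := ih (S - δ EE.r + δ (ed x)) (by omega)
    have e3 : fin S (x :: X) = fin (S - δ EE.r + δ (ed x)) X := rfl
    rw [e3, List.length_cons]
    omega

private theorem fin_aux (T : EE W C →₀ ℕ) (k : ℕ) (X : List (JJ W C Z)) (hX : X.length ≤ k) :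
    fin (k • δ EE.r + T) X = (k - X.length) • δ (EE.r : EE W C) +
      (T + (X.map (fun x => δ (ed x))).sum) := by
  induction X generalizing k T with
  | nil =>
    show k • δ EE.r + T = (k - 0) • δ EE.r + (T + 0)
    rw [add_zero, Nat.sub_zero]
  | cons x X ih =>
    rw [List.length_cons] at hX
    obtain ⟨k, rfl⟩ : ∃ l, k = l + 1 := ⟨k - 1, by omega⟩
    have e3 : fin ((k + 1) • δ EE.r + T) (x :: X) =
        fin ((k + 1) • δ EE.r + T - δ EE.r + δ (ed x)) X := rfl
    have e4 : (k + 1) • δ (EE.r : EE W C) + T - δ EE.r + δ (ed x) =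
        k • δ EE.r + (T + δ (ed x)) := by
      rw [add_smul, one_smul, add_right_comm, add_tsub_cancel_right, add_assoc]
    rw [e3, e4, ih _ _ (by omega), List.length_cons, Nat.add_sub_add_right, List.map_cons,
      List.sum_cons, add_assoc T]

theorem fin_eq (n : ℕ) (X : List (JJ W C Z)) (hX : X.length ≤ n) :
    fin (st n) X = (n - X.length) • δ (EE.r : EE W C) + (X.map (fun x => δ (ed x))).sum := by
  have e1 := fin_aux 0 n X hX
  rw [add_zero, zero_add] at e1
  exact e1

theorem Ax.rn_walk (h : P.Ax) (S : EE W C →₀ ℕ) (X : List (JJ W C Z))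
    (hX : X.length ≤ S EE.r) : P.dg.cx.IsWalk S (P.rn S X) (fin S X) := by
  induction X generalizing S with
  | nil => exact rfl
  | cons x X ih =>
    have e1 : (S - δ EE.r + δ (ed x) : EE W C →₀ ℕ) EE.r =
        S EE.r - 1 + (δ (ed x) : EE W C →₀ ℕ) EE.r := by
      rw [Finsupp.add_apply, Finsupp.tsub_apply, Finsupp.single_eq_same]
    rw [List.length_cons] at hX
    have e2 := ih (S - δ EE.r + δ (ed x)) (by omega)
    have e3 : fin S (x :: X) = fin (S - δ EE.r + δ (ed x)) X := rfl
    have e4 : P.rn S (x :: X) = P.wq x (S - δ EE.r) ++ P.rn (S - δ EE.r + δ (ed x)) X := rfl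
    have e6 : S - δ EE.r + δ EE.r = S :=
      tsub_add_cancel_of_le (Finsupp.single_le_iff.2 (by omega))
    have e5 : P.dg.cx.IsWalk S (P.wq x (S - δ EE.r)) (S - δ EE.r + δ (ed x)) :=
      (congrArg (fun T => P.dg.cx.IsWalk T (P.wq x (S - δ EE.r)) (S - δ EE.r + δ (ed x))) e6).mp
        (h.wq_walk x (S - δ EE.r))
    rw [e3, e4]
    exact Cx.isWalk_append e5 e2

private theorem chn_append {e e' e'' : EE W C} {A B : List (JJ W C Z)} (h1 : P.Chn e A e')
    (h2 : P.Chn e' B e'') : P.Chn e (A ++ B) e'' := by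
  induction A generalizing e with
  | nil =>
    have h3 : e = e' := h1
    rw [h3]
    exact h2
  | cons x A ih => exact ⟨h1.1, ih h1.2⟩

private theorem dec_aux (h : P.Ax) (a' : W) (x : JJ W C Z) (hx : P.bey (some a') x) :
    ∃ A : List (JJ W C Z), P.Chn (.t a') A (ed x) ∧
      (∀ N, P.wq x N = P.wq (.t a') N ++ ap A N) ∧ ∀ a ∈ A, P.bey (some a') a := by
  induction hn : P.lo (P.vt x) using Nat.strong_induction_on generalizing x with
  | _ n ih =>
    obtain ⟨h1, h2⟩ := h.a3 (some a') x hx.1 hx.2
    by_cases hv : P.vt x = some a'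
    · refine ⟨[x], ⟨by rw [hv]; rfl, rfl⟩, fun N => ?_, ?_⟩
      · rw [h.wq_some x a' hv]
        rfl
      · intro a ha
        rw [List.mem_singleton] at ha
        rw [ha]
        exact hx
    · rcases hw : P.vt x with _ | b
      · rw [hw] at h1
        have h3 := h.par_lt a'
        have h4 := h.lo_none_le (P.par a')
        omega
      · rw [hw] at h1 h2 hv hn
        have h3 : P.lo (some a') ≠ P.lo (some b) := fun h4 => hv (h.lo_inj h4).symm
        have h4 := h.a0 (some b)
        have h5 := h.par_lt b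
        have h6 : P.pos (.t b : JJ W C Z) = P.lo (some b) := rfl
        obtain ⟨A, hA1, hA2, hA3⟩ := ih (P.lo (P.par b)) (by omega) (.t b)
          ⟨by omega, by omega⟩ rfl
        refine ⟨A ++ [x], chn_append hA1 ⟨by rw [hw]; rfl, rfl⟩, fun N => ?_, ?_⟩
        · rw [h.wq_some x b hw, hA2 N, List.append_assoc]
          unfold ap
          rw [List.map_append]
          rfl
        · intro a ha
          rw [List.mem_append, List.mem_singleton] at ha
          rcases ha with ha | ha
          · exact hA3 a ha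
          · rw [ha]
            exact hx

theorem Ax.dec (h : P.Ax) {i x : JJ W C Z} (hi : P.inb i x) :
    ∃ A : List (JJ W C Z), P.Chn (ed i) A (ed x) ∧ (∀ N, P.wq x N = P.wq i N ++ ap A N) ∧
      ∀ a ∈ A, ∃ a', i = .t a' ∧ P.bey (some a') a := by
  by_cases hxi : x = i
  · subst hxi
    refine ⟨[], rfl, fun N => ?_, ?_⟩
    · exact (List.append_nil _).symm
    · intro a ha
      simp at ha
  · obtain ⟨a', rfl⟩ : ∃ a', i = .t a' := by
      by_contra hc
      exact hxi ((h.inb_leaf fun a ha => hc ⟨a, ha⟩).1 hi)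
    rcases h.inb_t.1 hi with h1 | h1
    · exact absurd h1 hxi
    · obtain ⟨A, hA1, hA2, hA3⟩ := dec_aux h a' x h1
      exact ⟨A, hA1, hA2, fun a ha => ⟨a', rfl, hA3 a ha⟩⟩

end PD

end GB
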