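import Pool.Agent.Helper95.GB.GE.Eqv

/-! # GB/GE/Gen: all exchanges in `H` imply `H = ⊤` (stub, prove in place)

Proof.  By `Eqv.main` with `k = n` any two lists of length `≤ n` with the same `fin` are equivalent.
Claim: for each walk `w` from `st n` to `S` there is a list `X`, `X.length ≤ n`, `fin (st n) X = S` and
`g[w] * g[rn (st n) X]⁻¹ ∈ H`.  Induction on `w` from the right (or prove: if it holds for `w` it holds for `w ++ [b]`;
`List.reverseRecOn`).  For `w = []`: `X = []`.
Let `b = ((j, M), true)`: from `S = M + δ (be (vt j))` to `S' = M + δ (ed j)`.  The number of particles is `n`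
(`Finsupp.degree` or the sum of the values is preserved by the walk), so `M` has `n - 1` particles.  Let `Y` be a list with
`fin (st n) Y = M + δ r`, `Y.length ≤ n - 1`: list the particles of `M` which are not on `r`, as `t a` resp. `m c`.
If `vt j = none` then `S = M + δ r` and `Y` is a list for `S`; `X' = Y ++ [j]`, `rn X' = rn Y ++ wq j M`,
`wq j M = [((j,M),true)]` (`path_none`).  If `vt j = some a` then `Y ++ [t a]` is a list for `S` and `X' = Y ++ [j]` satisfies
`g[rn X'] = g[rn (Y ++ [t a])] * g (j, M)` by `Ax.wq_some`.  In both cases: the list `X` for `w` is equivalent to the list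
`Y` resp. `Y ++ [t a]`, so `g[w] * g (j,M) * g[rn X']⁻¹ ∈ H`.  (`M + δ r - δ r = M`.)
For `b = ((j, M), false)`: from `S = M + δ (ed j)` to `M + δ (be (vt j))`: the same lists with exchanged roles.
Finally let `γ : G`; `γ = g[w]` for a closed walk at `st n` (`D.surj`), `X` a list with `fin X = st n`;
`Eqv X []`, `rn [] = []`, so `γ ∈ H`.
-/

set_option autoImplicit false

namespace GB

/-- every multiset of edges is a sum over a list -/
theorem gen_list {E : Type} (U : E →₀ ℕ) :
    ∃ l : List E, (l.map fun e => δ e).sum = U ∧ l.length = U.degree := by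
  induction U using Finsupp.induction_linear with
  | zero => exact ⟨[], by simp, by simp⟩
  | add f g hf hg =>
    obtain ⟨l, h1, h2⟩ := hf
    obtain ⟨l', h1', h2'⟩ := hg
    exact ⟨l ++ l', by rw [List.map_append, List.sum_append, h1, h1'],
      by rw [List.length_append, h2, h2', map_add]⟩
  | single a b =>
    refine ⟨List.replicate b a, ?_, ?_⟩
    · rw [List.map_replicate, List.sum_replicate]
      simp [δ]
    · simp

theorem gen_split {W C Z : Type} (l : List (EE W C)) :
    ∃ (Y : List (JJ W C Z)) (k : ℕ), (Y.map fun x => δ (PD.ed x)).sum + k • δ (EE.r : EE W C) =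
      (l.map fun e => δ e).sum ∧ Y.length + k = l.length := by
  induction l with
  | nil => exact ⟨[], 0, by simp, by simp⟩
  | cons e l ih =>
    obtain ⟨Y, k, h1, h2⟩ := ih
    cases e with
    | r =>
      refine ⟨Y, k + 1, ?_, ?_⟩
      · rw [List.map_cons, List.sum_cons, ← h1, add_smul, one_smul]
        abel
      · rw [List.length_cons]
        omega
    | t a =>
      refine ⟨.t a :: Y, k, ?_, ?_⟩
      · rw [List.map_cons, List.sum_cons, List.map_cons, List.sum_cons, ← h1, add_assoc]
        rfl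
      · rw [List.length_cons, List.length_cons]
        omega
    | c c =>
      refine ⟨.m c :: Y, k, ?_, ?_⟩
      · rw [List.map_cons, List.sum_cons, List.map_cons, List.sum_cons, ← h1, add_assoc]
        rfl
      · rw [List.length_cons, List.length_cons]
        omega

theorem gen_out {W C Z : Type} (n : ℕ) (M : EE W C →₀ ℕ) (hM : M.degree + 1 = n) :
    ∃ Y : List (JJ W C Z), Y.length + 1 ≤ n ∧ PD.fin (PD.st n) Y = M + δ EE.r := by
  obtain ⟨l, h1, h2⟩ := gen_list M
  obtain ⟨Y, k, h3, h4⟩ := gen_split (Z := Z) l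
  refine ⟨Y, by omega, ?_⟩
  rw [PD.fin_eq n Y (by omega)]
  have h5 : n - Y.length = k + 1 := by omega
  rw [h5, ← h1, ← h3, add_smul, one_smul]
  abel

theorem gen_degree {W C Z : Type} (n : ℕ) (X : List (JJ W C Z)) (hX : X.length ≤ n) :
    (PD.fin (PD.st n) X).degree = n := by
  rw [PD.fin_eq n X hX, map_add, map_nsmul, map_list_sum, List.map_map]
  have h1 : ∀ e : EE W C, (δ e).degree = 1 := fun e => by simp [δ]
  have h2 : (X.map ((Finsupp.degree (R := ℕ)) ∘ fun x : JJ W C Z => δ (PD.ed x))).sum = X.length := by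
    clear hX
    induction X with
    | nil => rfl
    | cons x X ih =>
      rw [List.map_cons, List.sum_cons, ih, List.length_cons, Function.comp_apply, h1]
      omega
  rw [h1, h2]
  simp only [smul_eq_mul, mul_one]
  omega

theorem gen_deg_add {E : Type} (M : E →₀ ℕ) (e : E) : (M + δ e).degree = M.degree + 1 := by
  rw [map_add]
  simp [δ]

theorem PD.Ax.gen_step {W C Z : Type} {P : PD W C Z} (h : P.Ax) {G : Type} [Group G] (n : ℕ)
    (g : JJ W C Z × (EE W C →₀ ℕ) → G) (j : JJ W C Z) (M : EE W C →₀ ℕ)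
    (hM : M.degree + 1 = n) :
    ∃ A B : List (JJ W C Z), A.length ≤ n ∧ B.length ≤ n ∧
      PD.fin (PD.st n) A = M + δ (be (P.vt j)) ∧ PD.fin (PD.st n) B = M + δ (ed j) ∧
      P.dg.cx.val g (P.rn (PD.st n) B) = P.dg.cx.val g (P.rn (PD.st n) A) * g (j, M) := by
  obtain ⟨Y, h1, h2⟩ := gen_out (Z := Z) n M hM
  have e1 : ∀ x : JJ W C Z, PD.fin (PD.st n) (Y ++ [x]) = M + δ (ed x) := by
    intro x
    rw [PD.fin_append, h2]
    change (M + δ EE.r) - δ EE.r + δ (ed x) = _
    rw [add_tsub_cancel_right]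
  have e2 : ∀ x : JJ W C Z, P.rn (PD.st n) (Y ++ [x]) = P.rn (PD.st n) Y ++ P.wq x M := by
    intro x
    rw [PD.rn_append, h2]
    change _ ++ (P.wq x (M + δ EE.r - δ EE.r) ++ []) = _
    rw [add_tsub_cancel_right, List.append_nil]
  have hva : ∀ u v : PD.Wk W C Z, P.dg.cx.val g (u ++ v) =
      P.dg.cx.val g u * P.dg.cx.val g v := fun u v => Cx.val_append P.dg.cx g u v
  rcases hv : P.vt j with _ | a
  · refine ⟨Y, Y ++ [j], by omega, by simpa using h1, h2, e1 j, ?_⟩
    rw [e2, hva]
    congr 1
    have e3 : P.wq j M = [((j, M), true)] := by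
      unfold PD.wq
      rw [hv, PD.path_none]
      rfl
    rw [e3]
    change (if true = true then g (j, M) else (g (j, M))⁻¹) * 1 = g (j, M)
    rw [if_pos rfl, mul_one]
  · refine ⟨Y ++ [.t a], Y ++ [j], by simpa using h1, by simpa using h1, e1 _, e1 j, ?_⟩
    rw [e2, e2, hva, hva, h.wq_some j a hv, hva, mul_assoc]
    congr 2
    change (if true = true then g (j, M) else (g (j, M))⁻¹) * 1 = g (j, M)
    rw [if_pos rfl, mul_one]

theorem PD.Ax.gen {W C Z : Type} {P : PD W C Z} (h : P.Ax) {G : Type} [Group G] (n : ℕ)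
    (D : PiD P.dg.cx (PD.st n) G) (H : Subgroup G)
    (ht : ∀ e : PD.Ch C Z, P.Eqv D.g n H [PD.mi e] (PD.plL e))
    (hok : AllOK n (P.okH D.g n H) n) : H = ⊤ := by
  have main : ∀ (w : List (P.dg.cx.Ed × Bool)) (S : EE W C →₀ ℕ),
      P.dg.cx.IsWalk (PD.st n) w S → ∃ X : List (JJ W C Z), X.length ≤ n ∧
        PD.fin (PD.st n) X = S ∧
        P.dg.cx.val D.g w * (P.dg.cx.val D.g (P.rn (PD.st n) X))⁻¹ ∈ H := by
    intro w
    induction w using List.reverseRecOn with
    | nil =>
      intro S hS
      refine ⟨[], Nat.zero_le _, hS, ?_⟩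
      change (1 : G) * (1 : G)⁻¹ ∈ H
      rw [inv_one, mul_one]
      exact H.one_mem
    | append_singleton w b ih =>
      intro S' hS'
      obtain ⟨S, hS, hb⟩ : ∃ S : EE W C →₀ ℕ, P.dg.cx.IsWalk (PD.st n) w S ∧
        P.dg.cx.IsWalk S [b] S' := Cx.isWalk_append_iff.1 hS'
      obtain ⟨X, hX1, hX2, hX3⟩ := ih S hS
      have hdeg : S.degree = n := by rw [← hX2]; exact gen_degree n X hX1
      obtain ⟨⟨j, M⟩, b⟩ := b
      obtain ⟨hb1, hb2⟩ := hb
      have hEq : ∀ A : List (JJ W C Z), A.length ≤ n → PD.fin (PD.st n) A = S →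
          P.dg.cx.val D.g w * (P.dg.cx.val D.g (P.rn (PD.st n) A))⁻¹ ∈ H := by
        intro A hA1 hA2
        have e1 : P.Eqv D.g n H X A :=
          PD.Eqv.main hok ht (by omega) hX1 (by omega) hA1 (hX2.trans hA2.symm)
        have e2 := H.mul_mem hX3 e1
        have e3 : P.dg.cx.val D.g w * (P.dg.cx.val D.g (P.rn (PD.st n) X))⁻¹ *
            (P.dg.cx.val D.g (P.rn (PD.st n) X) * (P.dg.cx.val D.g (P.rn (PD.st n) A))⁻¹) =
            P.dg.cx.val D.g w * (P.dg.cx.val D.g (P.rn (PD.st n) A))⁻¹ := by group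
        rw [e3] at e2
        exact e2
      cases b with
      | true =>
        have c1 : M + δ (be (P.vt j)) = S := hb1
        have c2 : M + δ (ed j) = S' := hb2
        have hM : M.degree + 1 = n := by
          rw [← hdeg, ← c1, gen_deg_add]
        obtain ⟨A, B, a1, a2, a3, a4, a5⟩ := h.gen_step n D.g j M hM
        refine ⟨B, a2, a4.trans c2, ?_⟩
        have e4 := hEq A a1 (a3.trans c1)
        rw [Cx.val_append, a5]
        have e5 : P.dg.cx.val D.g [((j, M), true)] = D.g (j, M) := by
          change (if true = true then D.g (j, M) else (D.g (j, M))⁻¹) * 1 = _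
          rw [if_pos rfl, mul_one]
        rw [e5, mul_inv_rev, mul_assoc, mul_inv_cancel_left]
        exact e4
      | false =>
        have c1 : M + δ (ed j) = S := hb1
        have c2 : M + δ (be (P.vt j)) = S' := hb2
        have hM : M.degree + 1 = n := by
          rw [← hdeg, ← c1, gen_deg_add]
        obtain ⟨A, B, a1, a2, a3, a4, a5⟩ := h.gen_step n D.g j M hM
        refine ⟨A, a1, a3.trans c2, ?_⟩
        have e4 := hEq B a2 (a4.trans c1)
        rw [a5, mul_inv_rev] at e4
        rw [Cx.val_append]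
        have e5 : P.dg.cx.val D.g [((j, M), false)] = (D.g (j, M))⁻¹ := by
          change (if false = true then D.g (j, M) else (D.g (j, M))⁻¹) * 1 = _
          rw [if_neg (by simp), mul_one]
        rw [e5, mul_assoc]
        exact e4
  rw [Subgroup.eq_top_iff']
  intro γ
  obtain ⟨w, hw, rfl⟩ := D.surj γ
  obtain ⟨X, hX1, hX2, hX3⟩ := main w _ hw
  have e1 : P.Eqv D.g n H X [] :=
    PD.Eqv.main hok ht (by omega) hX1 (Nat.zero_le _) (Nat.zero_le _) hX2
  have e2 := H.mul_mem hX3 e1
  have e3 : P.dg.cx.val D.g (P.rn (PD.st n) []) = 1 := rfl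
  rw [e3, inv_one, mul_one, inv_mul_cancel_right] at e2
  exact e2

end GB
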