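import Pool.Agent.Helper95.GB.GE.Paths
import Pool.Agent.Helper95.GB.GT.Pi1

/-! # GB/GE/Eqv: the equivalence of lists modulo the subgroup `H` (stub, prove in place)

`Eqv g n H X Y : g[rn X] * g[rn Y]⁻¹ ∈ H` is an equivalence relation (`refl`, `symm`, `trans`).
`app`: if `Eqv X Y` and `fin X = fin Y` then `Eqv (X ++ Z) (Y ++ Z)` (`rn_append`: the second parts are the same walk).
`perm`: let `AllOK n okH k` (`okH` with the given `g, n, H`).  If `X`, `Y` are permutations of each other,
`X.length ≤ k + 1`, `X.length ≤ n`, then `Eqv X Y`.  By `List.Perm` one reduces to an exchange of adjacent elements: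
prove by induction on the length that every element can be moved: e.g. show first that for every `A, x, y, B` with
`(A ++ [x, y] ++ B).length ≤ min (k+1) n`: `Eqv (A ++ [x,y] ++ B) (A ++ [y,x] ++ B)` (from `okH A x y`, `A.length < k`, and
`app`; `fin (A ++ [x,y]) = fin (A ++ [y,x])` by `fin_eq`), then induct on `List.Perm` in the form: for all prefixes `A`,
`Eqv (A ++ X) (A ++ Y)` (cases nil, cons, swap, trans; for swap the tail is appended by `app`).
`main`: let moreover `Eqv [mi e] (plL e)` for all `e`.  If `X.length, Y.length ≤ k + 1`, `≤ n` and `fin X = fin Y` then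
`Eqv X Y`.  Proof: each list is equivalent to one without `p c` and `z k` of length `≤` the old one and the same `fin`:
move such an element to the front by `perm`, replace `[p c]` by `[m c]` or `[z k]` by `[]` (`fin [z k] = fin []` for
`1 ≤ n`, `fin [p c] = fin [m c]`; append the rest by `app`), and induct on the number of such elements.  Two lists
without `p`, `z` and with the same `fin` are permutations of each other: by `fin_eq` the numbers of `t a` and of `m c`
are the values of `fin` at the edges `EE.t a`, `EE.c c` (`List.perm_iff_count`), then `perm`.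
-/

set_option autoImplicit false

namespace GB

namespace PD

variable {W C Z : Type} {P : PD W C Z} {G : Type} [Group G]

theorem Eqv.refl (g : JJ W C Z × (EE W C →₀ ℕ) → G) (n : ℕ) (H : Subgroup G)
    (X : List (JJ W C Z)) : P.Eqv g n H X X := by
  unfold PD.Eqv
  rw [mul_inv_cancel]
  exact H.one_mem

theorem Eqv.symm {g : JJ W C Z × (EE W C →₀ ℕ) → G} {n : ℕ} {H : Subgroup G}
    {X Y : List (JJ W C Z)} (h : P.Eqv g n H X Y) : P.Eqv g n H Y X := by
  unfold PD.Eqv at h ⊢
  have h1 := H.inv_mem h
  rwa [mul_inv_rev, inv_inv] at h1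

theorem Eqv.trans {g : JJ W C Z × (EE W C →₀ ℕ) → G} {n : ℕ} {H : Subgroup G}
    {X Y V : List (JJ W C Z)} (h : P.Eqv g n H X Y) (h' : P.Eqv g n H Y V) :
    P.Eqv g n H X V := by
  unfold PD.Eqv at h h' ⊢
  have h1 := H.mul_mem h h'
  rwa [mul_assoc, inv_mul_cancel_left] at h1

theorem Eqv.app {g : JJ W C Z × (EE W C →₀ ℕ) → G} {n : ℕ} {H : Subgroup G}
    {X Y : List (JJ W C Z)} (h : P.Eqv g n H X Y) (hf : fin (st n) X = fin (st n) Y)
    (V : List (JJ W C Z)) : P.Eqv g n H (X ++ V) (Y ++ V) := by
  unfold PD.Eqv at h ⊢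
  rw [rn_append, rn_append, hf]
  have h1 : ∀ u : Wk W C Z, P.dg.cx.val g (u ++ P.rn (fin (st n) Y) V)
      = P.dg.cx.val g u * P.dg.cx.val g (P.rn (fin (st n) Y) V) :=
    fun u => Cx.val_append P.dg.cx g u _
  rw [h1, h1, mul_inv_rev, ← mul_assoc, mul_inv_cancel_right]
  exact h

private lemma fin_perm {n : ℕ} {X Y : List (JJ W C Z)} (hp : X.Perm Y) (h : X.length ≤ n) :
    fin (st n) X = fin (st n) Y := by
  have h' : Y.length ≤ n := by rw [← hp.length_eq]; exact h
  rw [fin_eq n X h, fin_eq n Y h', hp.length_eq, (hp.map _).sum_eq]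

private lemma perm_aux {g : JJ W C Z × (EE W C →₀ ℕ) → G} {n : ℕ} {H : Subgroup G} {k : ℕ}
    (hok : AllOK n (P.okH g n H) k) {X Y : List (JJ W C Z)} (hp : X.Perm Y) :
    ∀ A : List (JJ W C Z), (A ++ X).length ≤ k + 1 → (A ++ X).length ≤ n →
      P.Eqv g n H (A ++ X) (A ++ Y) := by
  induction hp with
  | nil => intro A _ _; exact Eqv.refl g n H _
  | cons x hp ih =>
    intro A h1 h2
    rename_i l₁ l₂
    have h3 := ih (A ++ [x]) (by simpa using h1) (by simpa using h2)
    simpa using h3
  | swap x y l =>
    intro A h1 h2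
    simp only [List.length_append, List.length_cons] at h1 h2
    have h3 : P.Eqv g n H (A ++ [y, x]) (A ++ [x, y]) := hok A y x (by omega) (by omega)
    have hp' : (A ++ [y, x]).Perm (A ++ [x, y]) := (List.Perm.swap x y []).append_left A
    have h5 : (A ++ [y, x]).length ≤ n := by
      simp only [List.length_append, List.length_cons, List.length_nil]
      omega
    have h4 := h3.app (fin_perm hp' h5) l
    simpa using h4
  | trans hp1 hp2 ih1 ih2 =>
    intro A h1 h2
    refine (ih1 A h1 h2).trans (ih2 A ?_ ?_)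
    · rw [List.length_append, ← hp1.length_eq, ← List.length_append]; exact h1
    · rw [List.length_append, ← hp1.length_eq, ← List.length_append]; exact h2

theorem Eqv.perm {g : JJ W C Z × (EE W C →₀ ℕ) → G} {n : ℕ} {H : Subgroup G} {k : ℕ}
    (hok : AllOK n (P.okH g n H) k) {X Y : List (JJ W C Z)} (hp : X.Perm Y)
    (h1 : X.length ≤ k + 1) (h2 : X.length ≤ n) : P.Eqv g n H X Y :=
  perm_aux hok hp [] h1 h2

/-- plus ends and ends of the root edge -/
private def bad : JJ W C Z → Bool
  | .t _ => false
  | .m _ => false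
  | .p _ => true
  | .z _ => true

private lemma clean {g : JJ W C Z × (EE W C →₀ ℕ) → G} {n : ℕ} {H : Subgroup G} {k : ℕ}
    (hok : AllOK n (P.okH g n H) k) (ht : ∀ e : Ch C Z, P.Eqv g n H [mi e] (plL e)) :
    ∀ (m : ℕ) (X : List (JJ W C Z)), X.countP bad = m → X.length ≤ k + 1 → X.length ≤ n →
      ∃ X' : List (JJ W C Z), P.Eqv g n H X X' ∧ fin (st n) X = fin (st n) X' ∧
        X'.length ≤ X.length ∧ ∀ x ∈ X', bad x = false := by
  intro m
  induction m with
  | zero =>
    intro X h0 _ _
    refine ⟨X, Eqv.refl g n H X, rfl, le_refl _, ?_⟩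
    intro x hx
    rw [List.countP_eq_zero] at h0
    have := h0 x hx
    simpa using this
  | succ m ih =>
    intro X h0 h1 h2
    have hpos : 0 < X.countP bad := by omega
    obtain ⟨x, hx, hbx⟩ := List.countP_pos_iff.1 hpos
    obtain ⟨s, t, rfl⟩ := List.append_of_mem hx
    have hp : (s ++ x :: t).Perm (x :: (s ++ t)) := List.perm_middle
    have e1 : P.Eqv g n H (s ++ x :: t) (x :: (s ++ t)) := Eqv.perm hok hp h1 h2
    have f1 : fin (st n) (s ++ x :: t) = fin (st n) (x :: (s ++ t)) := fin_perm hp h2
    have hcount : (s ++ t).countP bad = m := by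
      rw [List.countP_append] at h0 ⊢
      rw [List.countP_cons_of_pos hbx] at h0
      omega
    have hlen : (s ++ x :: t).length = (s ++ t).length + 1 := by
      simp only [List.length_append, List.length_cons]
      omega
    rcases x with a | c | c | z
    · simp [bad] at hbx
    · simp [bad] at hbx
    · -- plus end
      have e2 : P.Eqv g n H [.p c] [.m c] := (ht (.inl c)).symm
      have f2 : fin (st n) [(.p c : JJ W C Z)] = fin (st n) [.m c] := rfl
      have e3 : P.Eqv g n H (.p c :: (s ++ t)) (.m c :: (s ++ t)) := e2.app f2 (s ++ t)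
      have f3 : fin (st n) (.p c :: (s ++ t)) = fin (st n) (.m c :: (s ++ t)) := rfl
      obtain ⟨X', h5, h6, h7, h8⟩ := ih (.m c :: (s ++ t))
        (by rw [List.countP_cons_of_neg (by simp [bad])]; exact hcount)
        (by rw [List.length_cons, ← hlen]; exact h1) (by rw [List.length_cons, ← hlen]; exact h2)
      refine ⟨X', (e1.trans e3).trans h5, (f1.trans f3).trans h6, ?_, h8⟩
      rw [hlen]
      simpa using h7
    · have e2 : P.Eqv g n H [.z z] [] := ht (.inr z)
      have f2 : fin (st n) [(.z z : JJ W C Z)] = fin (st n) ([] : List (JJ W C Z)) := by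
        show (st n - δ EE.r + δ (ed (.z z : JJ W C Z)) : EE W C →₀ ℕ) = st n
        have h3 : (δ EE.r : EE W C →₀ ℕ) ≤ st n := by
          have h4 : 1 ≤ n := by omega
          unfold st
          calc (δ EE.r : EE W C →₀ ℕ) = 1 • δ EE.r := (one_smul _ _).symm
            _ ≤ n • δ EE.r := by
                intro e
                simp only [Finsupp.smul_apply, smul_eq_mul]
                exact Nat.mul_le_mul_right _ h4
        exact tsub_add_cancel_of_le h3
      have e3 : P.Eqv g n H (.z z :: (s ++ t)) (s ++ t) := e2.app f2 (s ++ t)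
      have f3 : fin (st n) (.z z :: (s ++ t)) = fin (st n) (s ++ t) := by
        have h4 := fin_append (st n) [(.z z : JJ W C Z)] (s ++ t)
        rw [f2] at h4
        exact h4
      obtain ⟨X', h5, h6, h7, h8⟩ := ih (s ++ t) hcount (by omega) (by omega)
      exact ⟨X', (e1.trans e3).trans h5, (f1.trans f3).trans h6, by omega, h8⟩

private lemma sum_val (X : List (JJ W C Z)) (e : EE W C) :
    (X.map (fun x => δ (ed x))).sum e
      = X.countP (by classical exact fun x => decide (ed x = e)) := by
  classical
  induction X with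
  | nil => simp
  | cons x X ih =>
    rw [List.map_cons, List.sum_cons, Finsupp.add_apply, ih, List.countP_cons, add_comm]
    congr 1
    rw [Finsupp.single_apply]
    simp

private lemma perm_of_fin {n : ℕ} {X Y : List (JJ W C Z)} (hX : X.length ≤ n)
    (hY : Y.length ≤ n) (bX : ∀ x ∈ X, bad x = false) (bY : ∀ x ∈ Y, bad x = false)
    (hf : fin (st n) X = fin (st n) Y) : X.Perm Y := by
  classical
  rw [fin_eq n X hX, fin_eq n Y hY] at hf
  have key : ∀ e : EE W C, e ≠ EE.r →
      X.countP (fun x => decide (ed x = e)) = Y.countP (fun x => decide (ed x = e)) := by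
    intro e he
    have h1 := DFunLike.congr_fun hf e
    rw [Finsupp.add_apply, Finsupp.add_apply, Finsupp.smul_apply, Finsupp.smul_apply,
      Finsupp.single_apply, if_neg (Ne.symm he), smul_zero, smul_zero, zero_add, zero_add,
      sum_val, sum_val] at h1
    convert h1
  rw [List.perm_iff_count]
  have hcnt : ∀ (U : List (JJ W C Z)), (∀ x ∈ U, bad x = false) → ∀ (y : JJ W C Z),
      bad y = false → U.count y = U.countP (fun x => decide (ed x = ed y)) := by
    intro U hU y hy
    unfold List.count
    apply List.countP_congr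
    intro x hx
    have hbx := hU x hx
    rcases x with a | c | c | z <;> rcases y with a' | c' | c' | z' <;>
      simp_all [bad, ed]
  intro y
  by_cases hy : bad y = true
  · have h1 : ∀ U : List (JJ W C Z), (∀ x ∈ U, bad x = false) → U.count y = 0 := by
      intro U hU
      rw [List.count_eq_zero]
      intro hyU
      have := hU y hyU
      rw [hy] at this
      exact absurd this (by decide)
    rw [h1 X bX, h1 Y bY]
  · have hy' : bad y = false := by simpa using hy
    rw [hcnt X bX y hy', hcnt Y bY y hy']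
    apply key
    rcases y with a | c | c | z
    · intro h; cases h
    · intro h; cases h
    · simp [bad] at hy
    · simp [bad] at hy

theorem Eqv.main {g : JJ W C Z × (EE W C →₀ ℕ) → G} {n : ℕ} {H : Subgroup G} {k : ℕ}
    (hok : AllOK n (P.okH g n H) k) (ht : ∀ e : Ch C Z, P.Eqv g n H [mi e] (plL e))
    {X Y : List (JJ W C Z)} (hX1 : X.length ≤ k + 1) (hX2 : X.length ≤ n)
    (hY1 : Y.length ≤ k + 1) (hY2 : Y.length ≤ n) (hf : fin (st n) X = fin (st n) Y) :
    P.Eqv g n H X Y := by
  obtain ⟨X', h1, h2, h3, h4⟩ := clean hok ht _ X rfl hX1 hX2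
  obtain ⟨Y', h5, h6, h7, h8⟩ := clean hok ht _ Y rfl hY1 hY2
  have hp : X'.Perm Y' := perm_of_fin (h3.trans hX2) (h7.trans hY2) h4 h8 (by
    rw [← h2, ← h6]; exact hf)
  exact (h1.trans (Eqv.perm hok hp (h3.trans hX1) (h3.trans hX2))).trans h5.symm

end PD

end GB
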