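import Pool.Agent.Helper95.GB.GE.Swap
import Pool.Agent.Helper95.GB.GE.Eqv

/-! # GB/GE/RulesOf: the closure rules hold (stub, prove in place)

Let `ok = P.okH g n H`.  For `X.length + 2 ≤ n` the element of `okH X x y` is `π * g[sg S x y] * π⁻¹` with `π = g[rn (st n) X]`,
`S = fin (st n) X`, `2 ≤ S r` (`fin_r`; `rn_append`, `Cx.val_append`, `Cx.val_rev`, `rv` is `P.dg.cx.rev`).  So
* `sym`: `Eqv.symm`.  * `triv`: `sg_triv`.  * `br`: `sg_br` (the elements are equal).
* `pri`: the element of `ok (X ++ [z]) i j` is `π * g[wq z (S - δr) ++ sg (S - δr + δ ed z) i j ++ rv (wq z (S - δr))] * π⁻¹`,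
`3 ≤ S r`: use `sg_pri`.
* `eq`: `Eqv.main` gives `Eqv X X'` (`AllOK k`, lengths `≤ k`), `Eqv.app` gives `Eqv (X ++ [x,y]) (X' ++ [x,y])` and
`Eqv (X ++ [y,x]) (X' ++ [y,x])`.
* `hex`: `X x y z ~ X y x z` (`ok X x y`, `app`) `~ X y z x` (`ok (X ++ [y]) x z`) `~ X z y x` (`ok X y z`) and
`X x y z ~ X x z y` (`ok (X ++ [x]) y z`) `~ X z x y` (`ok X x z`); so `X z x y ~ X z y x`.
* `ch`: `Eqv (X ++ [mi e]) (X ++ plL e)` by `Eqv.main` (lengths `≤ X.length + 1`; `fin` equal: `ed (m c) = ed (p c)`,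
`ed (z k) = r`).  Appending `[y]`: `X, mi e, y ~ X, pl e, y`.  So with `e⁰ = mi e`, `e¹ = pl e`, `f⁰`, `f¹`:
`(X, eᵃ, fᵇ) ~ (X, e⁰, fᵇ)` and `(X, fᵇ, eᵃ) ~ (X, f⁰, eᵃ)` for all `a, b`.  `ok (eᵃ, fᵇ)` says
`(X, e⁰, fᵇ) ~ (X, f⁰, eᵃ)`; the four statements form a 4-cycle, any three imply the fourth.  If `e¹ = none` then
`(X, e¹, y) = (X, y) = (X, y, e¹)` as lists and the statement is trivially true.
-/

set_option autoImplicit false

namespace GB

namespace PD

section

variable {W C Z : Type} {P : PD W C Z} {G : Type} [Group G]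

private theorem ro_va (g : JJ W C Z × (EE W C →₀ ℕ) → G) (u v : Wk W C Z) :
    P.dg.cx.val g (u ++ v) = P.dg.cx.val g u * P.dg.cx.val g v :=
  Cx.val_append P.dg.cx g u v

private theorem ro_vr (g : JJ W C Z × (EE W C →₀ ℕ) → G) (u : Wk W C Z) :
    P.dg.cx.val g (rv u) = (P.dg.cx.val g u)⁻¹ :=
  Cx.val_rev P.dg.cx g u

private theorem ro_st (n : ℕ) : (st n : EE W C →₀ ℕ) EE.r = n := by
  simp [st]

private theorem ro_ge (n : ℕ) (X : List (JJ W C Z)) (hX : X.length ≤ n) :
    n ≤ (fin (st n) X) EE.r + X.length := by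
  have h1 := fin_r (st n) X (by rw [ro_st]; exact hX)
  rwa [ro_st] at h1

private theorem ro_rn (g : JJ W C Z × (EE W C →₀ ℕ) → G) (n : ℕ) (X Y : List (JJ W C Z)) :
    P.dg.cx.val g (P.rn (st n) (X ++ Y)) =
      P.dg.cx.val g (P.rn (st n) X) * P.dg.cx.val g (P.rn (fin (st n) X) Y) := by
  rw [rn_append, ro_va]

private theorem ro_iff (g : JJ W C Z × (EE W C →₀ ℕ) → G) (n : ℕ) (H : Subgroup G)
    (X : List (JJ W C Z)) (x y : JJ W C Z) : P.okH g n H X x y ↔
      P.dg.cx.val g (P.rn (st n) X) * P.dg.cx.val g (P.sg (fin (st n) X) x y) *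
        (P.dg.cx.val g (P.rn (st n) X))⁻¹ ∈ H := by
  unfold okH Eqv sg
  rw [ro_rn, ro_rn, ro_va, ro_vr, mul_inv_rev]
  simp only [mul_assoc]

private theorem ro_pri (g : JJ W C Z × (EE W C →₀ ℕ) → G) (n : ℕ) (H : Subgroup G)
    (X : List (JJ W C Z)) (z i j : JJ W C Z) : P.okH g n H (X ++ [z]) i j ↔
      P.dg.cx.val g (P.rn (st n) X) * P.dg.cx.val g (P.wq z (fin (st n) X - δ EE.r) ++
        P.sg (fin (st n) X - δ EE.r + δ (ed z)) i j ++ rv (P.wq z (fin (st n) X - δ EE.r))) *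
        (P.dg.cx.val g (P.rn (st n) X))⁻¹ ∈ H := by
  have h1 : P.rn (fin (st n) X) [z] = P.wq z (fin (st n) X - δ EE.r) := by
    simp [rn]
  have h2 : fin (st n) (X ++ [z]) = fin (st n) X - δ EE.r + δ (ed z) := by
    rw [fin_append]
    rfl
  rw [ro_iff, ro_rn, h1, h2, ro_va, ro_va, ro_vr, mul_inv_rev]
  simp only [mul_assoc]

private theorem ro_fin (n : ℕ) (X : List (JJ W C Z)) (hX : X.length + 2 ≤ n) (x y : JJ W C Z) :
    fin (st n) (X ++ [x, y]) = fin (st n) (X ++ [y, x]) := by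
  rw [fin_eq n _ (by simpa using hX), fin_eq n _ (by simpa using hX)]
  simp only [List.length_append, List.length_cons, List.length_nil, List.map_append,
    List.map_cons, List.map_nil, List.sum_append, List.sum_cons, List.sum_nil, add_zero]
  rw [add_comm (δ (ed x))]

private theorem ro_app {g : JJ W C Z × (EE W C →₀ ℕ) → G} {n : ℕ} {H : Subgroup G}
    {X : List (JJ W C Z)} {x y : JJ W C Z} (hX : X.length + 2 ≤ n) (h : P.okH g n H X x y)
    (z : JJ W C Z) : P.Eqv g n H (X ++ [x, y, z]) (X ++ [y, x, z]) := by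
  have h1 := Eqv.app h (ro_fin n X hX x y) [z]
  simpa using h1

/-- the list of an optional place -/
private def oL (a : Option (JJ W C Z)) : List (JJ W C Z) := match a with
  | some x => [x]
  | none => []

private theorem ro_plL (e : Ch C Z) : (plL e : List (JJ W C Z)) = oL (pl e) := by
  rcases e with c | k <;> rfl

private theorem ro_okO (g : JJ W C Z × (EE W C →₀ ℕ) → G) (n : ℕ) (H : Subgroup G)
    (X : List (JJ W C Z)) (a b : Option (JJ W C Z)) : okO (P.okH g n H) X a b ↔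
      P.Eqv g n H (X ++ oL a ++ oL b) (X ++ oL b ++ oL a) := by
  rcases a with _ | x <;> rcases b with _ | y
  · exact ⟨fun _ => Eqv.refl _ _ _ _, fun _ => trivial⟩
  · refine ⟨fun _ => ?_, fun _ => trivial⟩
    simp only [oL, List.append_nil]
    exact Eqv.refl _ _ _ _
  · refine ⟨fun _ => ?_, fun _ => trivial⟩
    simp only [oL, List.append_nil]
    exact Eqv.refl _ _ _ _
  · simp only [oL, okO, okH, List.append_assoc, List.cons_append, List.nil_append]

private theorem ro_finE (n : ℕ) (X : List (JJ W C Z)) (hX : X.length + 1 ≤ n) (e : Ch C Z) :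
    fin (st n) (X ++ oL (some (mi e))) = fin (st n) (X ++ oL (pl e)) := by
  rw [fin_append, fin_append]
  rcases e with c | k
  · rfl
  · have h1 : 1 ≤ (fin (st n) X) EE.r := by
      have := ro_ge n X (by omega)
      omega
    change fin (st n) X - δ EE.r + δ EE.r = fin (st n) X
    ext t
    simp only [Finsupp.coe_add, Finsupp.coe_tsub, Pi.add_apply, Pi.sub_apply]
    by_cases ht : t = EE.r
    · subst ht
      simp only [Finsupp.single_eq_same]
      omega
    · simp [Finsupp.single_apply, Ne.symm ht]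

private theorem ro_L {g : JJ W C Z × (EE W C →₀ ℕ) → G} {n : ℕ} {H : Subgroup G}
    (ht : ∀ e : Ch C Z, P.Eqv g n H [mi e] (plL e)) {X : List (JJ W C Z)}
    (hX : X.length + 2 ≤ n) (hok : AllOK n (P.okH g n H) X.length) (e : Ch C Z)
    (a : Option (JJ W C Z)) (ha : a = some (mi e) ∨ a = pl e) (b : Option (JJ W C Z)) :
    P.Eqv g n H (X ++ oL a ++ oL b) (X ++ oL (some (mi e)) ++ oL b) := by
  rcases ha with rfl | rfl
  · exact Eqv.refl _ _ _ _
  · have hf := ro_finE n X (by omega) e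
    have hl : ∀ a : Option (JJ W C Z), (oL a).length ≤ 1 := by
      intro a
      rcases a with _ | x <;> simp [oL]
    have h1 := hl (some (mi e))
    have h2 := hl (pl e)
    have h3 : P.Eqv g n H (X ++ oL (pl e)) (X ++ oL (some (mi e))) :=
      Eqv.main hok ht (by rw [List.length_append]; omega) (by rw [List.length_append]; omega)
        (by rw [List.length_append]; omega) (by rw [List.length_append]; omega) hf.symm
    exact Eqv.app h3 hf.symm _

private theorem ro_Q {g : JJ W C Z × (EE W C →₀ ℕ) → G} {n : ℕ} {H : Subgroup G}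
    (ht : ∀ e : Ch C Z, P.Eqv g n H [mi e] (plL e)) {X : List (JJ W C Z)}
    (hX : X.length + 2 ≤ n) (hok : AllOK n (P.okH g n H) X.length) (e f : Ch C Z)
    (a : Option (JJ W C Z)) (ha : a = some (mi e) ∨ a = pl e) (b : Option (JJ W C Z))
    (hb : b = some (mi f) ∨ b = pl f) : okO (P.okH g n H) X a b ↔
      P.Eqv g n H (X ++ oL (some (mi e)) ++ oL b) (X ++ oL (some (mi f)) ++ oL a) := by
  have h1 := ro_L ht hX hok e a ha b
  have h2 := ro_L ht hX hok f b hb a
  rw [ro_okO]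
  exact ⟨fun h => (h1.symm.trans h).trans h2, fun h => (h1.trans h).trans h2.symm⟩

end

end PD

theorem PD.Ax.rules_of {W C Z : Type} {P : PD W C Z} (h : P.Ax) {G : Type} [Group G]
    (g : JJ W C Z × (EE W C →₀ ℕ) → G) (hg : P.dg.cx.Lab g) (n : ℕ) (H : Subgroup G)
    (ht : ∀ e : PD.Ch C Z, P.Eqv g n H [PD.mi e] (PD.plL e)) :
    Rules P n (P.okH g n H) := by
  have hS : ∀ X : List (JJ W C Z), X.length + 2 ≤ n → 2 ≤ (PD.fin (PD.st n) X) EE.r := by
    intro X hX
    have := PD.ro_ge n X (by omega)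
    omega
  have hS3 : ∀ X : List (JJ W C Z), X.length + 3 ≤ n → 3 ≤ (PD.fin (PD.st n) X) EE.r := by
    intro X hX
    have := PD.ro_ge n X (by omega)
    omega
  refine ⟨fun X x y hxy => PD.Eqv.symm hxy, ?_, ?_, ?_, ?_, ?_, ?_⟩
  · intro X x y hX hxy
    rw [PD.ro_iff, h.sg_triv g hg _ (hS X hX) x y hxy, mul_one, mul_inv_cancel]
    exact H.one_mem
  · intro X i j x y hX hv hij hx hy
    rw [PD.ro_iff, PD.ro_iff, h.sg_br g hg _ (hS X hX) i j x y hv hij hx hy]
  · intro X i j k z hX hv hij hk hz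
    rw [PD.ro_pri, PD.ro_pri, h.sg_pri g hg _ (hS3 X hX) i j k z hv hij hk hz]
  · intro X X' k h1 h2 h3 h4 hok hf x y
    have h5 : P.Eqv g n H X X' :=
      PD.Eqv.main hok ht (by omega) (by omega) (by omega) (by omega) hf
    have h6 := PD.Eqv.app h5 hf [x, y]
    have h7 := PD.Eqv.app h5 hf [y, x]
    exact ⟨fun h8 => (h6.symm.trans h8).trans h7, fun h8 => (h6.trans h8).trans h7.symm⟩
  · intro X x y z hX hok h1 h2
    have h3 : ∀ a b, P.okH g n H X a b := fun a b => hok X a b (by omega) (by omega)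
    have e1 : P.Eqv g n H (X ++ [z, x, y]) (X ++ [x, z, y]) :=
      PD.ro_app (by omega) (h3 z x) y
    have e2 : P.Eqv g n H (X ++ [x, y, z]) (X ++ [x, z, y]) := by
      have := h1
      unfold PD.okH at this
      simpa using this
    have e3 : P.Eqv g n H (X ++ [x, y, z]) (X ++ [y, x, z]) :=
      PD.ro_app (by omega) (h3 x y) z
    have e4 : P.Eqv g n H (X ++ [y, x, z]) (X ++ [y, z, x]) := by
      have := h2
      unfold PD.okH at this
      simpa using this
    have e5 : P.Eqv g n H (X ++ [y, z, x]) (X ++ [z, y, x]) :=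
      PD.ro_app (by omega) (h3 y z) x
    have e6 := (((e1.trans e2.symm).trans e3).trans e4).trans e5
    unfold PD.okH
    simpa using e6
  · intro X e f hX hok
    have q := fun a ha b hb => PD.ro_Q (P := P) ht hX hok e f a ha b hb
    have q00 := q _ (Or.inl rfl) _ (Or.inl rfl)
    have q01 := q _ (Or.inl rfl) _ (Or.inr rfl)
    have q10 := q _ (Or.inr rfl) _ (Or.inl rfl)
    have q11 := q _ (Or.inr rfl) _ (Or.inr rfl)
    rw [q00, q01, q10, q11]
    refine ⟨fun a b c => ?_, fun a b c => ?_, fun a b c => ?_, fun a b c => ?_⟩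
    · exact (b.trans a.symm).trans c
    · exact (a.trans b.symm).trans c
    · exact (c.trans b.symm).trans a
    · exact (b.trans c.symm).trans a

end GB
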