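import Pool.Agent.Helper95.GB.Iface
import Pool.Agent.Helper95.GB.GT.Defs

/-! # GB/GE: definitions for the generation block -/

set_option autoImplicit false

namespace GB

namespace PD

variable {W C Z : Type} (P : PD W C Z)

/-- auxiliary: the tree path to a vertex, with fuel -/
def pathF : ℕ → Option W → List W
  | 0, _ => []
  | _ + 1, none => []
  | n + 1, some a => pathF n (P.par a) ++ [a]

/-- the tree path from the root to the vertex `v` (the list of its vertices `≠` root) -/
def path (v : Option W) : List W := P.pathF (P.lo v + 1) v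

/-- walks in the reduced complex -/
abbrev Wk (W C Z : Type) : Type := List ((JJ W C Z × (EE W C →₀ ℕ)) × Bool)

/-- reversed walk (this is `P.dg.cx.rev w`, by `rfl`) -/
def rv (w : Wk W C Z) : Wk W C Z := (w.map (fun a => (a.1, !a.2))).reverse

/-- move one particle from the root edge along the tree into the edge of `x` (spectators `M`) -/
noncomputable def wq (x : JJ W C Z) (M : EE W C →₀ ℕ) : Wk W C Z :=
  (P.path (P.vt x)).map (fun a => ((.t a, M), true)) ++ [((x, M), true)]

/-- send out particles to the places in the list, one after the other, starting from state `S` -/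
noncomputable def rn : (EE W C →₀ ℕ) → List (JJ W C Z) → Wk W C Z
  | _, [] => []
  | S, x :: X => P.wq x (S - δ EE.r) ++ rn (S - δ EE.r + δ (ed x)) X

/-- the final state -/
noncomputable def fin : (EE W C →₀ ℕ) → List (JJ W C Z) → (EE W C →₀ ℕ)
  | S, [] => S
  | S, x :: X => fin (S - δ EE.r + δ (ed x)) X

/-- `n` particles on the root edge -/
noncomputable def st (n : ℕ) : EE W C →₀ ℕ := n • δ EE.r

/-- the closed walk: `x` then `y` out, `x` (sent second) and `y` (sent first) back -/
noncomputable def sg (S : EE W C →₀ ℕ) (x y : JJ W C Z) : Wk W C Z :=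
  P.rn S [x, y] ++ rv (P.rn S [y, x])

/-- the list of the plus end of a generalized chord -/
def plL (e : Ch C Z) : List (JJ W C Z) := match e with
  | .inl c => [.p c]
  | .inr _ => []

variable {G : Type} [Group G]

/-- two lists give the same coset of `H` -/
def Eqv (g : JJ W C Z × (EE W C →₀ ℕ) → G) (n : ℕ) (H : Subgroup G) (X Y : List (JJ W C Z)) :
    Prop :=
  P.dg.cx.val g (P.rn (st n) X) * (P.dg.cx.val g (P.rn (st n) Y))⁻¹ ∈ H

/-- `x` and `y` may be exchanged after `X` -/
def okH (g : JJ W C Z × (EE W C →₀ ℕ) → G) (n : ℕ) (H : Subgroup G) (X : List (JJ W C Z))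
    (x y : JJ W C Z) : Prop := P.Eqv g n H (X ++ [x, y]) (X ++ [y, x])

end PD

/-- all exchanges with shorter prefix are fine -/
def AllOK {W C Z : Type} (n : ℕ) (ok : List (JJ W C Z) → JJ W C Z → JJ W C Z → Prop)
    (k : ℕ) : Prop := ∀ X x y, X.length < k → X.length + 2 ≤ n → ok X x y

/-- extension to the root place `none` -/
def okO {W C Z : Type} (ok : List (JJ W C Z) → JJ W C Z → JJ W C Z → Prop)
    (X : List (JJ W C Z)) : Option (JJ W C Z) → Option (JJ W C Z) → Prop
  | some x, some y => ok X x y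
  | _, _ => True

/-- The closure rules. -/
structure Rules {W C Z : Type} (P : PD W C Z) (n : ℕ)
    (ok : List (JJ W C Z) → JJ W C Z → JJ W C Z → Prop) : Prop where
  sym : ∀ X x y, ok X x y → ok X y x
  triv : ∀ X x y, X.length + 2 ≤ n → P.inb x y → ok X x y
  br : ∀ X i j x y, X.length + 2 ≤ n → P.vt i = P.vt j → i ≠ j → P.inb i x → P.inb j y →
    (ok X x y ↔ ok X i j)
  pri : ∀ X i j k z, X.length + 3 ≤ n → P.vt i = P.vt j → i ≠ j → P.vt k = P.vt i →
    P.inb k z → (ok (X ++ [z]) i j ↔ ok (X ++ [k]) i j)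
  eq : ∀ X X' k, X.length ≤ k → X'.length ≤ k → X.length + 2 ≤ n → X'.length + 2 ≤ n →
    AllOK n ok k → PD.fin (PD.st n) X = PD.fin (PD.st n) X' → ∀ x y, (ok X x y ↔ ok X' x y)
  hex : ∀ X x y z, X.length + 3 ≤ n → AllOK n ok (X.length + 1) → ok (X ++ [x]) y z →
    ok (X ++ [y]) x z → ok (X ++ [z]) x y
  ch : ∀ X (e f : PD.Ch C Z), X.length + 2 ≤ n → AllOK n ok X.length →
    (okO ok X (some (PD.mi e)) (some (PD.mi f)) → okO ok X (some (PD.mi e)) (PD.pl f) →
      okO ok X (PD.pl e) (some (PD.mi f)) → okO ok X (PD.pl e) (PD.pl f)) ∧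
    (okO ok X (some (PD.mi e)) (some (PD.mi f)) → okO ok X (some (PD.mi e)) (PD.pl f) →
      okO ok X (PD.pl e) (PD.pl f) → okO ok X (PD.pl e) (some (PD.mi f))) ∧
    (okO ok X (some (PD.mi e)) (some (PD.mi f)) → okO ok X (PD.pl e) (some (PD.mi f)) →
      okO ok X (PD.pl e) (PD.pl f) → okO ok X (some (PD.mi e)) (PD.pl f)) ∧
    (okO ok X (some (PD.mi e)) (PD.pl f) → okO ok X (PD.pl e) (some (PD.mi f)) →
      okO ok X (PD.pl e) (PD.pl f) → okO ok X (some (PD.mi e)) (some (PD.mi f)))

namespace PD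

variable {W C Z : Type} (P : PD W C Z)

/-- height of the plus end of a generalized chord -/
def hgt : Ch C Z → ℕ
  | .inl c => P.lo (P.pv c) + 1
  | .inr _ => 0

/-- direct relation between chords: both go from a branch `j` at `v` to below `v`, and a chord `e`
goes from a branch `i` left of `j` to a place lower than both -/
def Dir (f f' : C) : Prop := ∃ (i j : JJ W C Z) (e : Ch C Z), P.vt i = P.vt j ∧
  P.pos i < P.pos j ∧ P.inb i (mi e) ∧ P.inb j (.m f) ∧ P.inb j (.m f') ∧
  P.belowP (P.vt i) e ∧ P.belowP (P.vt i) (.inl f) ∧ P.belowP (P.vt i) (.inl f') ∧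
  P.hgt e < P.hgt (.inl f) ∧ P.hgt e < P.hgt (.inl f')

/-- not a plus end -/
def NP (j : JJ W C Z) : Prop := ∀ c, j ≠ .p c

/-- index condition for the generators at nonlow branches -/
def KI (n : ℕ) (X : Multiset (JJ W C Z)) (i h : JJ W C Z) : Prop :=
  P.NL (P.vt i) i ∧ (∀ x ∈ X, P.NL (P.vt i) x ∧ P.pos i ≤ P.pos x) ∧ P.vt h = P.vt i ∧ h ≠ i ∧
    ¬ (P.NL (P.vt i) h ∧ P.pos h < P.pos i) ∧ X.card + 2 ≤ n

/-- index condition for the generators at chords: the branch of the minus end at the vertex of the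
plus end is low, and there is no directly related chord further to the left -/
def BI (n : ℕ) (f : C) : Prop := 2 ≤ n ∧
  (∃ j : JJ W C Z, P.vt j = P.pv f ∧ P.inb j (.m f) ∧ P.low (P.pv f) j) ∧
  ∀ f', P.Dir f f' → P.pm f ≤ P.pm f'

/-- index condition for the generators at pairs of low branches -/
def QI (n : ℕ) (i j : JJ W C Z) : Prop := 2 ≤ n ∧ P.vt i = P.vt j ∧ P.pos i < P.pos j ∧
  NP i ∧ NP j ∧ P.low (P.vt i) i ∧ P.low (P.vt i) j ∧
  ∀ e f, P.inb i (mi e) → P.inb j (mi f) → P.belowP (P.vt i) e → P.belowP (P.vt i) f →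
    ¬ P.hgt e < P.hgt f

/-- the index set of the generators -/
inductive TI (n : ℕ) : Type
  | e (e : Ch C Z)
  | k (X : Multiset (JJ W C Z)) (i h : JJ W C Z) (hk : P.KI n X i h)
  | b (f : C) (hb : P.BI n f)
  | q (i j : JJ W C Z) (hq : P.QI n i j)

/-- the closed walk of a generator -/
noncomputable def tw (n : ℕ) : P.TI n → Wk W C Z
  | .e e => P.rn (st n) [mi e] ++ rv (P.rn (st n) (plL e))
  | .k X i h _ => P.rn (st n) (X.toList ++ [i, h]) ++ rv (P.rn (st n) (X.toList ++ [h, i]))
  | .b f _ => P.rn (st n) [.m f, .p f] ++ rv (P.rn (st n) [.p f, .m f])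
  | .q i j _ => P.rn (st n) [i, j] ++ rv (P.rn (st n) [j, i])

end PD

end GB
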