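import Pool.Agent.Helper95.GB.GE.Paths

/-! # GB/GE/Strip: a one-particle path commutes with a walk at other vertices 

`strip`: for a compatible labelling `g` (`P.dg.cx.Lab g`), a list `A` leading from the edge `e` to `e'` and a walk `B`
from `S` to `S'` which uses other vertices:
`g[ap A S] * g[sh (δ e') B] = g[sh (δ e) B] * g[ap A S']` (`g[w] = P.dg.cx.val g w`).
Proof: single half-edge `a` and single forward step `b = ((j,M),true)`: `S = M + δ (be (vt j))`, `S' = M + δ (ed j)`, and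
the claim is the 2-cell of `i = a`, `j`, `M`: `g (a, M + δ be_j) * g (j, M + δ ed_a) = g (j, M + δ be_a) * g (a, M + δ ed_j)`.
Backward step: solve the same equation for the inverses.  Then induction on `B` (with `A = [a]`), then induction on
`A`.  Use `Cx.val_append` (file `GT/Pi1`).
-/

set_option autoImplicit false

namespace GB

namespace PD

variable {W C Z : Type} {P : PD W C Z} {G : Type} [Group G]

theorem strip_one (g : JJ W C Z × (EE W C →₀ ℕ) → G) (hg : P.dg.cx.Lab g)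
    (a : JJ W C Z) (B : Wk W C Z) (S' : EE W C →₀ ℕ) : ∀ (S : EE W C →₀ ℕ),
    P.dg.cx.IsWalk S B S' → (∀ b ∈ B, P.vt a ≠ P.vt b.1.1) →
    g (a, S) * P.dg.cx.val g (DG.sh (δ (ed a)) B) =
      P.dg.cx.val g (DG.sh (δ (be (P.vt a))) B) * g (a, S') := by
  induction B with
  | nil =>
    intro S hB _
    have h1 : S = S' := hB
    rw [h1]
    show g (a, S') * 1 = 1 * g (a, S')
    rw [mul_one, one_mul]
  | cons b B ih =>
    intro S hB hd
    obtain ⟨h1, h2⟩ := hB
    obtain ⟨⟨j, M⟩, c⟩ := b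
    have hj : P.vt a ≠ P.vt j := hd _ List.mem_cons_self
    have hcell : g (a, M + δ (be (P.vt j))) * g (j, M + δ (ed a)) =
        g (j, M + δ (be (P.vt a))) * g (a, M + δ (ed j)) :=
      hg (a, M + δ (be (P.vt j))) (j, M + δ (ed a)) (j, M + δ (be (P.vt a))) (a, M + δ (ed j))
        ⟨a, j, M, hj, rfl, rfl, rfl, rfl⟩
    cases c with
    | true =>
      have hS : M + δ (be (P.vt j)) = S := h1
      have ih' := ih (M + δ (ed j)) h2 (fun b hb => hd b (List.mem_cons_of_mem _ hb))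
      show g (a, S) * (g (j, M + δ (ed a)) * P.dg.cx.val g (DG.sh (δ (ed a)) B)) =
        g (j, M + δ (be (P.vt a))) * P.dg.cx.val g (DG.sh (δ (be (P.vt a))) B) * g (a, S')
      rw [mul_assoc, ← ih', ← mul_assoc, ← mul_assoc, ← hcell, hS]
    | false =>
      have hS : M + δ (ed j) = S := h1
      have ih' := ih (M + δ (be (P.vt j))) h2 (fun b hb => hd b (List.mem_cons_of_mem _ hb))
      show g (a, S) * ((g (j, M + δ (ed a)))⁻¹ * P.dg.cx.val g (DG.sh (δ (ed a)) B)) =
        (g (j, M + δ (be (P.vt a))))⁻¹ * P.dg.cx.val g (DG.sh (δ (be (P.vt a))) B) * g (a, S')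
      have h3 : g (a, S) * (g (j, M + δ (ed a)))⁻¹ =
          (g (j, M + δ (be (P.vt a))))⁻¹ * g (a, M + δ (be (P.vt j))) := by
        rw [mul_inv_eq_iff_eq_mul, mul_assoc, hcell, ← mul_assoc, inv_mul_cancel, one_mul, hS]
      rw [mul_assoc, ← ih', ← mul_assoc, ← mul_assoc, ← h3]

theorem strip (g : JJ W C Z × (EE W C →₀ ℕ) → G) (hg : P.dg.cx.Lab g)
    (A : List (JJ W C Z)) (e e' : EE W C) (hA : P.Chn e A e') (B : Wk W C Z)
    (S S' : EE W C →₀ ℕ) (hB : P.dg.cx.IsWalk S B S')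
    (hd : ∀ a ∈ A, ∀ b ∈ B, P.vt a ≠ P.vt b.1.1) :
    P.dg.cx.val g (ap A S) * P.dg.cx.val g (DG.sh (δ e') B) =
      P.dg.cx.val g (DG.sh (δ e) B) * P.dg.cx.val g (ap A S') := by
  induction A generalizing e with
  | nil =>
    have h1 : e = e' := hA
    rw [h1]
    show 1 * P.dg.cx.val g (DG.sh (δ e') B) = P.dg.cx.val g (DG.sh (δ e') B) * 1
    rw [mul_one, one_mul]
  | cons a A ih =>
    obtain ⟨h1, h2⟩ := hA
    have ih' := ih (ed a) h2 (fun x hx => hd x (List.mem_cons_of_mem _ hx))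
    have h3 := strip_one g hg a B S' S hB (hd a List.mem_cons_self)
    show g (a, S) * P.dg.cx.val g (ap A S) * P.dg.cx.val g (DG.sh (δ e') B) =
      P.dg.cx.val g (DG.sh (δ e) B) * (g (a, S') * P.dg.cx.val g (ap A S'))
    rw [mul_assoc, ih', ← mul_assoc, h3, h1, mul_assoc]

end PD

end GB
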