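import Pool.Agent.Helper95.GB.GE.Strip
import Pool.Agent.Helper95.GB.GT.Pi1

/-! # GB/GE/Swap: exchanges depend only on the branches (stub, prove in place)

Write `S = M + 2 δ r` (`M = S - 2 • δ r`; `2 ≤ S r`).  Then
`g[sg S x y] = g[wq x (M+δr)] * g[wq y (M+δ ed x)] * (g[wq y (M+δr)] * g[wq x (M+δ ed y)])⁻¹`.

`sg_br`: `wq x N = wq i N ++ ap A N`, `wq y N = wq j N ++ ap B N` (`Ax.dec`).  The vertices of `A` are beyond `a'` where
`i = t a'`, those of `B` beyond `b'`, `j = t b'`; those of `wq i`, `wq j` are ancestors-or-equal of `v = vt i = vt j`.  So all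
three are disjoint (intervals of `some a'` and `some b'` are disjoint since `i ≠ j` are half-edges of the same vertex,
`Ax.part`).  By `strip` (write `A(N) = g[ap A N]`, etc.):
`A(M+δr) * g[wq j (M+δ ed x)] = g[wq j (M+δ ed i)] * A(M+δ ed j)`  (walk `wq j M` from `M+δr` to `M+δ ed j`),
`A(M+δ ed j) * B(M+δ ed x) = B(M+δ ed i) * A(M+δ ed y)`  (walk `ap B M`).
So the first half is `g[wq i (M+δr)] g[wq j (M+δ ed i)] B(M+δ ed i) A(M+δ ed y)`, and the second half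
`g[wq j (M+δr)] B(M+δr) g[wq i (M+δ ed y)] A(M+δ ed y) = g[wq j (M+δr)] g[wq i (M+δ ed j)] B(M+δ ed i) A(M+δ ed y)`.
The quotient does not depend on `A`, `B`.  (`sh (δ e) (wq j M) = wq j (M + δ e)`, `sh (δ e) (ap B M) = ap B (M + δ e)`.)

`sg_triv`: `x = y` is clear.  Otherwise `x = t a`, `wq y N = wq x N ++ ap A N`, `A` beyond `a`, and
`A(M+δr) * g[wq x (M+δ ed y)] = g[wq x (M+δ ed x)] * A(M+δ ed x)` (walk `wq x M` from `M+δr` to `M+δ ed x`), so both halves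
are `g[wq x (M+δr)] g[wq x (M+δ ed x)] A(M+δ ed x)`.

`sg_pri`: with `N = S - δ r` (`2 ≤ N r`): `sg (N + δ e) i j = sh (δ e) (sg N i j)`, `wq z N = wq k N ++ ap A N`, where the
vertices of `A` are beyond `c'`, `k = t c'`, at `v`; the closed walk `sg N i j` uses ancestors-or-equal of `v`.  By `strip`
`A(N) * g[sh (δ ed z) (sg N i j)] = g[sh (δ ed k) (sg N i j)] * A(N)`.
-/

set_option autoImplicit false

namespace GB

namespace PD

variable {W C Z : Type} {P : PD W C Z} {G : Type} [Group G]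

private theorem Swap_sh_wq (x : JJ W C Z) (M N : EE W C →₀ ℕ) :
    DG.sh N (P.wq x M) = P.wq x (M + N) := by
  unfold wq DG.sh
  rw [List.map_append, List.map_map]
  rfl

private theorem Swap_sh_ap (A : List (JJ W C Z)) (M N : EE W C →₀ ℕ) :
    DG.sh N (ap A M) = ap A (M + N) := by
  unfold ap DG.sh
  rw [List.map_map]
  rfl

private theorem Swap_sh_append (N : EE W C →₀ ℕ) (u v : Wk W C Z) :
    DG.sh N (u ++ v) = DG.sh N u ++ DG.sh N v := by
  unfold DG.sh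
  rw [List.map_append]

private theorem Swap_sh_rv (N : EE W C →₀ ℕ) (u : Wk W C Z) :
    DG.sh N (rv u) = rv (DG.sh N u) := by
  unfold DG.sh rv
  rw [List.map_reverse, List.map_map, List.map_map]
  rfl

private theorem Swap_val_rv (g : JJ W C Z × (EE W C →₀ ℕ) → G) (w : Wk W C Z) :
    P.dg.cx.val g (rv w) = (P.dg.cx.val g w)⁻¹ := Cx.val_rev P.dg.cx g w

private theorem Swap_val_append (g : JJ W C Z × (EE W C →₀ ℕ) → G) (u v : Wk W C Z) :
    P.dg.cx.val g (u ++ v) = P.dg.cx.val g u * P.dg.cx.val g v := Cx.val_append P.dg.cx g u v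

private theorem Swap_ap_walk (A : List (JJ W C Z)) (e e' : EE W C) (hA : P.Chn e A e')
    (M : EE W C →₀ ℕ) : P.dg.cx.IsWalk (M + δ e) (ap A M) (M + δ e') := by
  induction A generalizing e with
  | nil =>
    have h1 : e = e' := hA
    rw [h1]
    exact rfl
  | cons a A ih =>
    obtain ⟨h1, h2⟩ := hA
    refine ⟨?_, ih _ h2⟩
    rw [← h1]
    rfl

private theorem Swap_sg_eq (M : EE W C →₀ ℕ) (x y : JJ W C Z) :
    P.sg (M + 2 • δ EE.r) x y = (P.wq x (M + δ EE.r) ++ (P.wq y (M + δ (ed x)) ++ [])) ++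
      rv (P.wq y (M + δ EE.r) ++ (P.wq x (M + δ (ed y)) ++ [])) := by
  have h1 : M + 2 • δ (EE.r : EE W C) - δ EE.r = M + δ EE.r := by
    rw [two_smul, ← add_assoc, add_tsub_cancel_right]
  have h2 : ∀ z : JJ W C Z, M + δ EE.r + δ (ed z) - δ EE.r = M + δ (ed z) := fun z => by
    rw [add_right_comm, add_tsub_cancel_right]
  show (P.wq x (M + 2 • δ EE.r - δ EE.r) ++
      (P.wq y (M + 2 • δ EE.r - δ EE.r + δ (ed x) - δ EE.r) ++ [])) ++
      rv (P.wq y (M + 2 • δ EE.r - δ EE.r) ++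
      (P.wq x (M + 2 • δ EE.r - δ EE.r + δ (ed y) - δ EE.r) ++ [])) = _
  rw [h1, h2, h2]

private theorem Swap_ex (S : EE W C →₀ ℕ) (hS : 2 ≤ S EE.r) :
    ∃ M : EE W C →₀ ℕ, S = M + 2 • δ EE.r := by
  refine ⟨S - 2 • δ EE.r, (tsub_add_cancel_of_le ?_).symm⟩
  rw [Finsupp.smul_single, Finsupp.single_le_iff]
  exact hS

private theorem Swap_sep (h : P.Ax) {i a : JJ W C Z} (ha : ∃ a', i = .t a' ∧ P.bey (some a') a)
    {v : Option W} (hv : P.lo v ≤ P.lo (P.vt i)) : P.vt a ≠ v := by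
  obtain ⟨a', rfl, h1⟩ := ha
  intro h2
  have h3 := (h.a3 _ _ h1.1 h1.2).1
  have h4 := h.par_lt a'
  have h5 : P.vt (.t a') = P.par a' := rfl
  rw [h2] at h3
  rw [h5] at hv
  omega

private theorem Swap_sep2 (h : P.Ax) {i j a b : JJ W C Z} (hv : P.vt i = P.vt j) (hij : i ≠ j)
    (ha : ∃ a', i = .t a' ∧ P.bey (some a') a) (hb : ∃ b', j = .t b' ∧ P.bey (some b') b) :
    P.vt a ≠ P.vt b := by
  obtain ⟨a', rfl, h1⟩ := ha
  obtain ⟨b', rfl, h2⟩ := hb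
  intro h3
  have h4 : P.inb (.t a') a := h.inb_t.2 (Or.inr h1)
  obtain ⟨h5, h6⟩ := h.a3 _ _ h2.1 h2.2
  rw [← h3] at h5 h6
  have h7 : P.inb (.t b') a := h.inb_t.2 (Or.inr (h.bey_of_le h5 h6))
  obtain ⟨k, -, hk⟩ := h.part (h.inb_bey h4)
  exact hij ((hk _ ⟨rfl, h4⟩).trans (hk _ ⟨hv.symm, h7⟩).symm)

theorem Ax.sg_val (h : P.Ax) (g : JJ W C Z × (EE W C →₀ ℕ) → G) (M : EE W C →₀ ℕ)
    (x y : JJ W C Z) : P.dg.cx.val g (P.sg (M + 2 • δ EE.r) x y) =
      P.dg.cx.val g (P.wq x (M + δ EE.r)) * P.dg.cx.val g (P.wq y (M + δ (ed x))) *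
      (P.dg.cx.val g (P.wq y (M + δ EE.r)) * P.dg.cx.val g (P.wq x (M + δ (ed y))))⁻¹ := by
  rw [Swap_sg_eq, List.append_nil, List.append_nil, Swap_val_append, Swap_val_rv,
    Swap_val_append, Swap_val_append]

theorem Ax.sg_triv (h : P.Ax) (g : JJ W C Z × (EE W C →₀ ℕ) → G) (hg : P.dg.cx.Lab g)
    (S : EE W C →₀ ℕ) (hS : 2 ≤ S EE.r) (x y : JJ W C Z) (hxy : P.inb x y) :
    P.dg.cx.val g (P.sg S x y) = 1 := by
  obtain ⟨M, rfl⟩ := Swap_ex S hS
  obtain ⟨A, hA1, hA2, hA3⟩ := h.dec hxy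
  have h1 := strip g hg A _ _ hA1 (P.wq x M) (M + δ EE.r) (M + δ (ed x)) (h.wq_walk x M)
    (fun a ha b hb => Swap_sep h (hA3 a ha) (h.wq_vt x M b hb).1)
  rw [Swap_sh_wq, Swap_sh_wq] at h1
  rw [h.sg_val, hA2, hA2, Swap_val_append, Swap_val_append, mul_assoc _ _
    (P.dg.cx.val g (P.wq x (M + δ (ed y)))), h1, ← mul_assoc, mul_inv_cancel]

theorem Ax.sg_br (h : P.Ax) (g : JJ W C Z × (EE W C →₀ ℕ) → G) (hg : P.dg.cx.Lab g)
    (S : EE W C →₀ ℕ) (hS : 2 ≤ S EE.r) (i j x y : JJ W C Z) (hv : P.vt i = P.vt j)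
    (hij : i ≠ j) (hx : P.inb i x) (hy : P.inb j y) :
    P.dg.cx.val g (P.sg S x y) = P.dg.cx.val g (P.sg S i j) := by
  obtain ⟨M, rfl⟩ := Swap_ex S hS
  obtain ⟨A, hA1, hA2, hA3⟩ := h.dec hx
  obtain ⟨B, hB1, hB2, hB3⟩ := h.dec hy
  have e1 := strip g hg A _ _ hA1 (P.wq j M) _ _ (h.wq_walk j M)
    (fun a ha b hb => Swap_sep h (hA3 a ha) (by rw [hv]; exact (h.wq_vt j M b hb).1))
  have e2 := strip g hg A _ _ hA1 (ap B M) _ _ (Swap_ap_walk B _ _ hB1 M)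
    (fun a ha b hb => by
      unfold ap at hb
      rw [List.mem_map] at hb
      obtain ⟨b', hb', rfl⟩ := hb
      exact Swap_sep2 h hv hij (hA3 a ha) (hB3 b' hb'))
  have e3 := strip g hg B _ _ hB1 (P.wq i M) _ _ (h.wq_walk i M)
    (fun a ha b hb => Swap_sep h (hB3 a ha) (by rw [← hv]; exact (h.wq_vt i M b hb).1))
  rw [Swap_sh_wq, Swap_sh_wq] at e1 e3
  rw [Swap_sh_ap, Swap_sh_ap] at e2
  rw [h.sg_val, h.sg_val, hA2, hA2, hB2, hB2, Swap_val_append, Swap_val_append, Swap_val_append,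
    Swap_val_append]
  generalize P.dg.cx.val g (P.wq i (M + δ EE.r)) = wi0 at *
  generalize P.dg.cx.val g (P.wq j (M + δ EE.r)) = wj0 at *
  generalize P.dg.cx.val g (ap A (M + δ EE.r)) = a0 at *
  generalize P.dg.cx.val g (ap B (M + δ EE.r)) = b0 at *
  generalize P.dg.cx.val g (P.wq j (M + δ (ed x))) = wjx at *
  generalize P.dg.cx.val g (P.wq j (M + δ (ed i))) = wji at *
  generalize P.dg.cx.val g (ap A (M + δ (ed j))) = aj at *
  generalize P.dg.cx.val g (ap B (M + δ (ed x))) = bx at *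
  generalize P.dg.cx.val g (ap B (M + δ (ed i))) = bi at *
  generalize P.dg.cx.val g (ap A (M + δ (ed y))) = ay at *
  generalize P.dg.cx.val g (P.wq i (M + δ (ed y))) = wiy at *
  generalize P.dg.cx.val g (P.wq i (M + δ (ed j))) = wij at *
  have h1 : wi0 * a0 * (wjx * bx) = wi0 * wji * (bi * ay) := by
    rw [← e2, mul_assoc, ← mul_assoc a0, e1]
    group
  have h2 : wj0 * b0 * (wiy * ay) = wj0 * wij * (bi * ay) := by
    rw [mul_assoc, ← mul_assoc b0, e3]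
    group
  rw [h1, h2]
  group

theorem Ax.sg_pri (h : P.Ax) (g : JJ W C Z × (EE W C →₀ ℕ) → G) (hg : P.dg.cx.Lab g)
    (S : EE W C →₀ ℕ) (hS : 3 ≤ S EE.r) (i j k z : JJ W C Z) (hv : P.vt i = P.vt j)
    (hij : i ≠ j) (hk : P.vt k = P.vt i) (hz : P.inb k z) :
    P.dg.cx.val g (P.wq z (S - δ EE.r) ++ P.sg (S - δ EE.r + δ (ed z)) i j ++
      rv (P.wq z (S - δ EE.r))) =
    P.dg.cx.val g (P.wq k (S - δ EE.r) ++ P.sg (S - δ EE.r + δ (ed k)) i j ++
      rv (P.wq k (S - δ EE.r))) := by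
  have hN : 2 ≤ (S - δ EE.r : EE W C →₀ ℕ) EE.r := by
    rw [Finsupp.tsub_apply, Finsupp.single_eq_same]
    omega
  obtain ⟨M, hM⟩ := Swap_ex _ hN
  rw [hM]
  obtain ⟨A, hA1, hA2, hA3⟩ := h.dec hz
  have hsh : ∀ e : EE W C, DG.sh (δ e) (P.sg (M + 2 • δ EE.r) i j) =
      P.sg (M + 2 • δ EE.r + δ e) i j := by
    intro e
    rw [add_right_comm M (2 • δ EE.r) (δ e), Swap_sg_eq, Swap_sg_eq, List.append_nil,
      List.append_nil, List.append_nil, List.append_nil, Swap_sh_append, Swap_sh_rv,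
      Swap_sh_append, Swap_sh_append, Swap_sh_wq, Swap_sh_wq, Swap_sh_wq, Swap_sh_wq,
      add_right_comm M (δ EE.r) (δ e), add_right_comm M (δ (ed i)) (δ e),
      add_right_comm M (δ (ed j)) (δ e)]
  have hw : ∀ x y : JJ W C Z, P.dg.cx.IsWalk (M + 2 • δ EE.r)
      (P.wq x (M + δ EE.r) ++ P.wq y (M + δ (ed x))) (M + δ (ed x) + δ (ed y)) := by
    intro x y
    have h1 : P.dg.cx.IsWalk (M + δ EE.r + δ EE.r) (P.wq x (M + δ EE.r))
        (M + δ EE.r + δ (ed x)) := h.wq_walk x (M + δ EE.r)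
    have h4 : M + δ (ed x) + δ EE.r = M + δ EE.r + δ (ed x) := add_right_comm _ _ _
    have h2 : P.dg.cx.IsWalk (M + δ EE.r + δ (ed x)) (P.wq y (M + δ (ed x)))
        (M + δ (ed x) + δ (ed y)) :=
      (congrArg (fun T => P.dg.cx.IsWalk T (P.wq y (M + δ (ed x)))
        (M + δ (ed x) + δ (ed y))) h4).mp (h.wq_walk y (M + δ (ed x)))
    have h3 : M + 2 • δ (EE.r : EE W C) = M + δ EE.r + δ EE.r := by
      rw [two_smul, add_assoc]
    exact (congrArg (fun T => P.dg.cx.IsWalk T (P.wq x (M + δ EE.r) ++ P.wq y (M + δ (ed x)))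
      (M + δ (ed x) + δ (ed y))) h3).mpr (Cx.isWalk_append h1 h2)
  have hwalk : P.dg.cx.IsWalk (M + 2 • δ EE.r) (P.sg (M + 2 • δ EE.r) i j)
      (M + 2 • δ EE.r) := by
    rw [Swap_sg_eq, List.append_nil, List.append_nil]
    have h1 := hw i j
    have h4 : M + δ (ed j) + δ (ed i) = M + δ (ed i) + δ (ed j) := add_right_comm _ _ _
    have h2 := Cx.isWalk_rev ((congrArg (fun T => P.dg.cx.IsWalk (M + 2 • δ EE.r)
      (P.wq j (M + δ EE.r) ++ P.wq i (M + δ (ed j))) T) h4).mp (hw j i))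
    exact Cx.isWalk_append h1 h2
  have hlo : ∀ b ∈ P.sg (M + 2 • δ EE.r) i j, P.lo (P.vt b.1.1) ≤ P.lo (P.vt k) := by
    have hrv : ∀ (w : Wk W C Z), ∀ b ∈ rv w, ∃ b' ∈ w, b.1 = b'.1 := by
      intro w b hb
      unfold rv at hb
      rw [List.mem_reverse, List.mem_map] at hb
      obtain ⟨b', hb', rfl⟩ := hb
      exact ⟨b', hb', rfl⟩
    have hi : ∀ N, ∀ b ∈ P.wq i N, P.lo (P.vt b.1.1) ≤ P.lo (P.vt k) := fun N b hb => by
      rw [hk]
      exact (h.wq_vt i N b hb).1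
    have hj : ∀ N, ∀ b ∈ P.wq j N, P.lo (P.vt b.1.1) ≤ P.lo (P.vt k) := fun N b hb => by
      rw [hk, hv]
      exact (h.wq_vt j N b hb).1
    intro b hb
    rw [Swap_sg_eq, List.append_nil, List.append_nil, List.mem_append, List.mem_append] at hb
    rcases hb with (hb | hb) | hb
    · exact hi _ b hb
    · exact hj _ b hb
    · obtain ⟨b', hb', hbb⟩ := hrv _ b hb
      rw [hbb]
      rw [List.mem_append] at hb'
      rcases hb' with hb' | hb'
      · exact hj _ b' hb'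
      · exact hi _ b' hb'
  have h1 := strip g hg A _ _ hA1 (P.sg (M + 2 • δ EE.r) i j) (M + 2 • δ EE.r)
    (M + 2 • δ EE.r) hwalk (fun a ha b hb => Swap_sep h (hA3 a ha) (hlo b hb))
  rw [hsh, hsh] at h1
  rw [Swap_val_append, Swap_val_append, Swap_val_rv, Swap_val_append, Swap_val_append, Swap_val_rv,
    hA2, Swap_val_append, mul_inv_rev, mul_assoc (P.dg.cx.val g (P.wq k (M + 2 • δ EE.r))), h1]
  group

end PD

end GB
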